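import Mathlib
import Pool.Agent.Lib.MP_d610d0_nt.Final

/-!
Two almost prime pairs `m, m + 2` between any two consecutive cubes.
-/

set_option autoImplicit false

namespace Pool.Agent.Results.MP_d610d0_nt.AlmostTwinEveryN

open scoped ArithmeticFunction.Omega

/-- The integers `m` with `n ^ 3 < m < m + 2 < (n + 1) ^ 3` such that `m (m + 2)` has at most `r`
prime factors counted with multiplicity. For `r = 2` this is the set counted by `T(n)`. -/
def almostPairs (r n : ℕ) : Set ℕ :=
  {m | n ^ 3 < m ∧ m + 2 < (n + 1) ^ 3 ∧ Ω (m * (m + 2)) ≤ r}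

/-- For every `n ≥ 1` there are at least two integers `m` such that both `m` and `m + 2` lie
strictly between `n ^ 3` and `(n + 1) ^ 3` and `m (m + 2)` has at most seven prime factors. -/
theorem result : ∀ n : ℕ, 1 ≤ n → 2 ≤ (almostPairs 7 n).encard := by
  intro n hn
  obtain ⟨S, h1, h2, -⟩ := Pool.Agent.Lib.MP_d610d0_nt.main_count n hn
  have hsub : (S : Set ℕ) ⊆ almostPairs 7 n := by
    intro m hm
    obtain ⟨a, b, c, -⟩ := h1 m (Finset.mem_coe.mp hm)
    exact ⟨a, b, c⟩
  have h3 := Set.encard_le_encard hsub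
  rw [Set.encard_coe_eq_coe_finsetCard] at h3
  refine le_trans ?_ h3
  exact_mod_cast h2

end Pool.Agent.Results.MP_d610d0_nt.AlmostTwinEveryN
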