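import Mathlib
import Pool.Agent.Lib.MP_d610d0_nt.CX.Main

/-!
A theorem of Chen type for pairs of consecutive cubes with a power saving in the exceptional set: for all but
`O(N ^ (4/5))` of the integers `n ≤ N` there are at least `c n ^ 2 / (log (n + 1)) ^ 2` primes `p` with
`n ^ 3 < p < p + 2 < (n + 1) ^ 3` such that `p + 2` has at most three prime factors.
-/

set_option autoImplicit false

namespace Pool.Agent.Results.MP_d610d0_nt.ChenPowerSaving

open scoped ArithmeticFunction.Omega

/-- The (finite) set of the primes `p` with `n ^ 3 < p < p + 2 < (n + 1) ^ 3` such that `p + 2` has at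
most three prime factors counted with multiplicity, all of them larger than `n ^ (1 / 3)`. -/
def chenPrimes (n : ℕ) : Set ℕ :=
  {p | p.Prime ∧ n ^ 3 < p ∧ p + 2 < (n + 1) ^ 3 ∧ Ω (p + 2) ≤ 3 ∧
    ∀ q : ℕ, q.Prime → q ∣ p + 2 → n < q ^ 3}

open Classical in
/-- There are constants `c > 0` and `C` such that for every `N ≥ 1` the number of the `n ≤ N` for which
`chenPrimes n` has fewer than `c n ^ 2 / (log (n + 1)) ^ 2` elements is at most `C N ^ (4 / 5)`. -/
theorem result : ∃ c : ℝ, 0 < c ∧ ∃ C : ℝ, ∀ N : ℕ, 1 ≤ N →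
    (((Finset.Icc 1 N).filter (fun n : ℕ =>
      ((chenPrimes n).ncard : ℝ) < c * (n : ℝ) ^ 2 / (Real.log (n + 1)) ^ 2)).card : ℝ)
      ≤ C * (N : ℝ) ^ (4 / 5 : ℝ) :=
  Pool.Agent.CX.final

end Pool.Agent.Results.MP_d610d0_nt.ChenPowerSaving
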