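import Mathlib
import Pool.Agent.Lib.MP_d610d0_nt.CA.FP.Main

/-!
Primes `p` with `p + 2 = P_4` between ALL consecutive cubes (from some point on): for every `n ≥ n0` there are at
least `c n ^ 2 / (log n) ^ 2` primes `p` with `n ^ 3 < p < p + 2 < (n + 1) ^ 3` such that `p + 2` has at most four
prime factors.
-/

set_option autoImplicit false

namespace Pool.Agent.Results.MP_d610d0_nt.ChenTypeEveryCube

open scoped ArithmeticFunction.Omega

/-- The (finite) set of the primes `p` with `n ^ 3 < p < p + 2 < (n + 1) ^ 3` such that `p + 2` has at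
most four prime factors counted with multiplicity, all of them larger than `n ^ (1 / 12)`. -/
def cubeSet (n : ℕ) : Set ℕ :=
  {p | p.Prime ∧ n ^ 3 < p ∧ p + 2 < (n + 1) ^ 3 ∧ Ω (p + 2) ≤ 4 ∧
    ∀ q : ℕ, q.Prime → q ∣ p + 2 → n < q ^ 12}

/-- There are `c > 0` and `n0` such that for every `n ≥ n0` the set has at least `c n ^ 2 / (log n) ^ 2`
elements. -/
theorem result : ∃ c : ℝ, 0 < c ∧ ∃ n0 : ℕ, ∀ n : ℕ, n0 ≤ n →
    c * (n : ℝ) ^ 2 / (Real.log n) ^ 2 ≤ ((cubeSet n).ncard : ℝ) :=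
  Pool.Agent.CA.FP.final4

end Pool.Agent.Results.MP_d610d0_nt.ChenTypeEveryCube
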