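import Mathlib
import Pool.Agent.Lib.MP_d610d0_nt.CC.All

/-!
Clusters of primes `p` with `p + 2` almost prime in every interval between consecutive cubes.
-/

set_option autoImplicit false

namespace Pool.Agent.Results.MP_d610d0_nt.CubeClusters

open scoped ArithmeticFunction.Omega

/-- The integers `x` such that for every `h ∈ I` both `x + h` and `x + h + 2` lie strictly between
`n ^ 3` and `(n + 1) ^ 3`, their product has at most `B` prime factors counted with multiplicity,
all of them larger than `n ^ (1 / B)`, and such that at least one and at least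
`10 ^ (-21) * log (card I)` of the numbers `x + h`, `h ∈ I`, are prime. -/
def clusterSet (I : Finset ℕ) (B n : ℕ) : Set ℕ :=
  {x | (∀ h ∈ I, n ^ 3 < x + h ∧ x + h + 2 < (n + 1) ^ 3 ∧
      Ω ((x + h) * (x + h + 2)) ≤ B ∧
      ∀ p : ℕ, p.Prime → p ∣ (x + h) * (x + h + 2) → n < p ^ B) ∧
    1 ≤ (I.filter (fun h => (x + h).Prime)).card ∧
    1 / 10 ^ 21 * Real.log I.card ≤ ((I.filter (fun h => (x + h).Prime)).card : ℝ)}

/-- For every `K ≥ 2` there are `B` and `c > 0` such that for every set `I` of `K` shifts for which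
every prime `p` has an `r` such that `p` divides none of the `(r + h) (r + h + 2)`, `h ∈ I`, and for
all large `n`, the set `clusterSet I B n` has at least `c n ^ 2 / (log n) ^ k` elements, `k` being the
number of elements of `I ∪ (I + 2)`. -/
theorem result : ∀ K : ℕ, 2 ≤ K → ∃ (B : ℕ) (c : ℝ), 0 < c ∧ ∀ I : Finset ℕ, I.card = K →
    (∀ p : ℕ, p.Prime → ∃ r : ℕ, ∀ h ∈ I, ¬ p ∣ (r + h) * (r + h + 2)) →
    ∃ n0 : ℕ, ∀ n : ℕ, n0 ≤ n →
      c * (n : ℝ) ^ 2 / (Real.log n) ^ (I ∪ I.image (fun h => h + 2)).card ≤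
        ((clusterSet I B n).ncard : ℝ) :=
  Pool.Agent.CC.clusters

end Pool.Agent.Results.MP_d610d0_nt.CubeClusters
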